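import Pool.Agent.H21.BD.Def
import Pool.Agent.H64.QUAD.Scl

/-!
# BODY of degree `n`: two times, and divided heights

`QHd.two`: two times on one line, the first is a part of the context (as `QH.two` of
`H64/QUAD/Two.lean`). `QHd.scl`: the heights are divided by `2 ^ r` (as `QH.scl` of
`H64/QUAD/Scl.lean`).
-/

set_option autoImplicit false

namespace Pool.BD64

open Finset Real
open Pool.Agent.H49.Ent Pool.Agent.H32.Dense Pool.STK Pool.KS6 Pool.SLO Pool.RC21 Pool.QB32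
open Pool.QT64 (Ls Ls_nn div_add_bd mod_bd div_real info_le)

variable {c k n : ℕ}

/-- Two times on one line; the first is a part of the context. -/
noncomputable def QHd.two (H : QHd c k n) : QHd c k n where
  Ω := H.Ω × H.Ω
  iΩ := inferInstance
  B := H.B × H.Tt
  Vt := H.Vt × (H.B × H.Tt)
  Tt := H.Tt
  p := p2 H.p H.line
  b := b2 H.th H.b
  nu := n2 H.hgt
  v := V2 H.th H.b H.v
  th := T2 H.th
  tau := H.tau
  E := H.E
  y := fun v => H.y v.1
  be := fun v => H.be v.1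
  g := fun t v => H.g t v.1 - H.g v.2.2 v.1
  a0 := H.a0
  b0 := fun v i => H.b0 v.1 i - H.g v.2.2 v.1 i

/-- **Two times.** -/
theorem two_ok1 (H : QHd c k n) {X : ℕ} {C d : ℝ} (hOk : H.OkN X C d) (hd : 0 ≤ d) :
    H.two.Ok1 X C (2 * d) := by
  have hp := hOk.law
  have hl := p2_law hp H.line
  have hDb : Det H.p H.line H.b := fun _ _ _ _ h => (Prod.ext_iff.1 (Prod.ext_iff.1 h).2).2
  have hDv : Det H.p H.line H.v := fun _ _ _ _ h => (Prod.ext_iff.1 (Prod.ext_iff.1 h).2).1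
  have hp0 := hp.nonneg
  refine
    { law := hl
      tau_r := hOk.tau_r
      y_r := fun v => hOk.y_r v.1
      E_b := hOk.E_b
      be_b := fun v => hOk.be_b v.1
      nu_b := fun w => hOk.hgt_b w.1
      g_eq := ?_
      h0 := ?_
      h1 := ?_
      h2 := ?_
      y_f := ?_
      t_f := ?_ }
  · intro t v i
    have h := hOk.g_eq t v.1 i
    refine le_trans (le_of_eq ?_) h
    show |((H.g t v.1 i - H.g v.2.2 v.1 i : ℤ) : ℝ) - (pol X (H.be v.1) (H.tau t) i -
      ∑ u, H.E t u i * H.y v.1 u + H.a0 t i + (H.b0 v.1 i - H.g v.2.2 v.1 i))| = _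
    congr 1
    push_cast
    ring
  · have h := base_h3 hp H.line H.th H.b H.v H.hgt hDb hOk.h0
    have e : CH (p2 H.p H.line) (T2 H.th) (fun w => (V2 H.th H.b H.v w, (n2 H.hgt w, b2 H.th H.b w))) =
        CH H.two.p H.two.th H.two.line := by
      refine CH_congr hl.nonneg (fun _ _ _ _ h => (Prod.ext_iff.1 h).1)
        (fun _ _ _ _ h => (Prod.ext_iff.1 h).1) ?_ ?_
      · intro w w' _ _ h
        simp only [Prod.mk.injEq] at h
        exact Prod.ext h.2.1 (Prod.ext h.1 h.2.2)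
      · intro w w' _ _ h
        have h1 := Prod.ext_iff.1 h
        have h2 := Prod.ext_iff.1 h1.2
        exact Prod.ext h2.1 (Prod.ext h1.1 h2.2)
    have e2 : CH (p2 H.p H.line) (T2 H.th) (b2 H.th H.b) = CH H.two.p H.two.th H.two.b := rfl
    rw [e, e2] at h
    linarith
  · have h := base_h1 hp H.line H.th H.b H.v H.hgt hDb hOk.h0 hOk.h2
    refine h.trans (le_of_eq ?_)
    ring
  · have h := base_h2 hp H.line H.th H.b H.v H.hgt hDb hDv hOk.h0 hOk.h2
      (fun t v => H.g t v.1 - H.g v.2.2 v.1) (C := 0) (by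
        intro w hw i
        obtain ⟨-, -, h3⟩ := p2_pos hp H.line hw
        have e1 : H.nu w.1 = H.nu w.2 := (Prod.ext_iff.1 h3).1
        have e2 : H.v w.1 = H.v w.2 := (Prod.ext_iff.1 (Prod.ext_iff.1 h3).2).1
        have e3 : H.hgt w.2 i - (H.hgt w.1 i +
            (H.g (H.th w.2) (V2 H.th H.b H.v w).1 -
              H.g (V2 H.th H.b H.v w).2.2 (V2 H.th H.b H.v w).1) i) = 0 := by
          unfold QHd.hgt V2
          simp only [Pi.add_apply, Pi.sub_apply, e1, e2]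
          ring
        rw [e3]
        simp)
    have e0 : (4 : ℝ) * 0 + 1 = 1 := by norm_num
    rw [e0, Real.log_one, mul_zero, mul_zero, add_zero] at h
    refine le_trans (le_of_eq ?_) (h.trans (le_of_eq (by ring)))
    rfl
  · have h := base_Y hp H.line H.th H.b hDb hOk.h0 (fun ω => H.y (H.v ω)) (fun ω ω' a b e => by
      simp only [hDv ω ω' a b e])
    have h1 := hOk.y_f
    have e2 : CH (p2 H.p H.line) (fun w => H.y (H.v w.1)) (b2 H.th H.b) =
      CH H.two.p (fun ω => H.two.y (H.two.v ω)) H.two.b := rfl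
    rw [e2] at h
    linarith
  · have h1 := hOk.t_f
    have h2 := info_le hp0 (X := H.th) (Y := fun ω => H.tau (H.th ω)) (Z := H.b) (Z' := H.line)
      (fun ω ω' e => by simp only [e]) hDb
    have h3 := hOk.h0
    have h4 : CH (p2 H.p H.line) (fun w => H.tau (H.th w.2)) (fun w => w.1) =
        CH H.p (fun ω => H.tau (H.th ω)) H.line := time_snd hp H.line (fun ω => H.tau (H.th ω))
    have h5 : CH (p2 H.p H.line) (fun w => H.tau (H.th w.2)) (fun w => w.1) ≤
        CH (p2 H.p H.line) (fun w => H.tau (H.th w.2)) (b2 H.th H.b) := by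
      refine CH_mono_cond hl.nonneg fun w w' _ _ h => ?_
      have e : w.1 = w'.1 := h
      unfold b2
      rw [e]
    have e2 : CH (p2 H.p H.line) (fun w => H.tau (H.th w.2)) (b2 H.th H.b) =
      CH H.two.p (fun ω => H.two.tau (H.two.th ω)) H.two.b := rfl
    rw [e2] at h5
    linarith

theorem two_line {H : QHd c k n} {ω ω' : H.Ω}
    (h : (H.hgt ω, ((H.v ω, (H.b ω, H.th ω)), (H.b ω, H.th ω))) =
      (H.hgt ω', ((H.v ω', (H.b ω', H.th ω')), (H.b ω', H.th ω')))) : H.line ω = H.line ω' := by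
  simp only [Prod.mk.injEq] at h
  obtain ⟨h1, ⟨h2, h3, h4⟩, -⟩ := h
  refine Prod.ext ?_ (Prod.ext h2 h3)
  unfold QHd.hgt at h1
  rw [h2, h4] at h1
  exact add_right_cancel h1

/-- The heights are divided by `2 ^ r`. -/
noncomputable def QHd.scl (H : QHd c k n) (r : ℕ) : QHd c k n where
  Ω := H.Ω
  iΩ := H.iΩ
  B := H.B
  Vt := H.Vt × (Fin c → ℤ)
  Tt := H.Tt
  p := H.p
  b := H.b
  nu := fun ω i => H.nu ω i / 2 ^ r
  v := fun ω => (H.v ω, fun i => H.nu ω i % 2 ^ r)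
  th := H.th
  tau := H.tau
  E := fun t u i => H.E t u i / 2 ^ r
  y := fun v => H.y v.1
  be := fun v s i => H.be v.1 s i / 2 ^ r
  g := fun t v i => H.g t v.1 i / 2 ^ r
  a0 := fun t i => H.a0 t i / 2 ^ r
  b0 := fun v i => H.b0 v.1 i / 2 ^ r

theorem pol_div (X r : ℕ) (β : Fin (n + 1) → Fin c → ℝ) (t : ℤ) (i : Fin c) :
    pol X (fun s i => β s i / 2 ^ r) t i = pol X β t i / 2 ^ r := by
  unfold pol
  rw [Finset.sum_div]
  refine Finset.sum_congr rfl fun s _ => ?_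
  ring

/-- **The hypotheses for the divided heights.** -/
theorem scl_okN (H : QHd c k n) {X r : ℕ} {C d : ℝ} (hr : C ≤ 2 ^ r) (hX : 1 ≤ X)
    (hOk : H.OkN X C d) : (H.scl r).OkN X 3 (d + ((c : ℝ) * Real.log 3 + Ls c r)) := by
  have hp := hOk.law
  have hp0 := hp.nonneg
  have hrR : (0 : ℝ) < 2 ^ r := by positivity
  have hl3 : 0 ≤ c * Real.log 3 + Ls c r := by
    have : (0 : ℝ) ≤ Real.log 3 := Real.log_nonneg (by norm_num)
    have := Ls_nn c r
    positivity
  have hdiv : ∀ x : ℝ, |x| ≤ C → |x / 2 ^ r| ≤ 1 := by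
    intro x hx
    rw [abs_div, abs_of_pos hrR, div_le_one hrR]
    exact hx.trans hr
  refine
    { law := hp
      tau_r := hOk.tau_r
      y_r := fun v => hOk.y_r v.1
      E_b := fun t u i => (hdiv _ (hOk.E_b t u i)).trans (by norm_num)
      be_b := fun v s i => (hdiv _ (hOk.be_b v.1 s i)).trans (by norm_num)
      hgt_b := ?_
      g_eq := ?_
      h0 := ?_
      h2 := ?_
      y_f := ?_
      t_f := ?_ }
  · intro ω i
    have h1 := hOk.hgt_b ω i
    have h2 := div_add_bd (H.nu ω i) (H.g (H.th ω) (H.v ω) i) r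
    have h3 := div_real (H.hgt ω i) r
    have e : ((H.scl r).hgt ω i : ℝ) = ((H.hgt ω i / 2 ^ r : ℤ) : ℝ) -
        (((H.nu ω i + H.g (H.th ω) (H.v ω) i) / 2 ^ r -
          (H.nu ω i / 2 ^ r + H.g (H.th ω) (H.v ω) i / 2 ^ r) : ℤ) : ℝ) := by
      have : (H.scl r).hgt ω i = H.nu ω i / 2 ^ r + H.g (H.th ω) (H.v ω) i / 2 ^ r := rfl
      rw [this]
      have h4 : H.hgt ω i = H.nu ω i + H.g (H.th ω) (H.v ω) i := rfl
      rw [h4]
      push_cast
      ring
    rw [e]
    have h5 : |(((H.nu ω i + H.g (H.th ω) (H.v ω) i) / 2 ^ r -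
          (H.nu ω i / 2 ^ r + H.g (H.th ω) (H.v ω) i / 2 ^ r) : ℤ) : ℝ)| ≤ 1 := by
      have : |(H.nu ω i + H.g (H.th ω) (H.v ω) i) / 2 ^ r -
          (H.nu ω i / 2 ^ r + H.g (H.th ω) (H.v ω) i / 2 ^ r)| ≤ 1 := by
        rw [abs_le]
        constructor <;> linarith [h2.1, h2.2]
      exact_mod_cast this
    have h6 : |(H.hgt ω i : ℝ) / 2 ^ r| ≤ 2 ^ X := by
      rw [abs_div, abs_of_pos hrR, div_le_iff₀ hrR]
      have : (0 : ℝ) < 2 ^ X := by positivity
      nlinarith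
    have h7 : (2 : ℝ) ≤ 2 ^ X := by
      calc (2 : ℝ) = 2 ^ 1 := by norm_num
        _ ≤ 2 ^ X := pow_le_pow_right₀ (by norm_num) hX
    rw [abs_le] at h3 h5 h6 ⊢
    constructor <;> linarith [h3.1, h3.2, h5.1, h5.2, h6.1, h6.2]
  · intro t v i
    have h1 := hOk.g_eq t v.1 i
    have h3 := div_real (H.g t v.1 i) r
    have h2 := hdiv _ h1
    have e : (((H.scl r).g t v i : ℤ) : ℝ) = ((H.g t v.1 i / 2 ^ r : ℤ) : ℝ) := rfl
    have e2 : pol X ((H.scl r).be v) ((H.scl r).tau t) i -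
        ∑ u, (H.scl r).E t u i * (H.scl r).y v u + (H.scl r).a0 t i + (H.scl r).b0 v i =
        (pol X (H.be v.1) (H.tau t) i - ∑ u, H.E t u i * H.y v.1 u + H.a0 t i +
          H.b0 v.1 i) / 2 ^ r := by
      show pol X (fun s i => H.be v.1 s i / 2 ^ r) (H.tau t) i -
        ∑ u, H.E t u i / 2 ^ r * (H.y v.1 u : ℝ) + H.a0 t i / 2 ^ r + H.b0 v.1 i / 2 ^ r = _
      rw [pol_div]
      have : ∑ u, H.E t u i / 2 ^ r * (H.y v.1 u : ℝ) = (∑ u, H.E t u i * H.y v.1 u) / 2 ^ r := by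
        rw [Finset.sum_div]
        exact Finset.sum_congr rfl fun u _ => by ring
      rw [this]
      ring
    rw [e, e2]
    have e3 : ((H.g t v.1 i / 2 ^ r : ℤ) : ℝ) - (pol X (H.be v.1) (H.tau t) i -
        ∑ u, H.E t u i * H.y v.1 u + H.a0 t i + H.b0 v.1 i) / 2 ^ r =
        (((H.g t v.1 i / 2 ^ r : ℤ) : ℝ) - (H.g t v.1 i : ℝ) / 2 ^ r) +
        ((H.g t v.1 i : ℝ) - (pol X (H.be v.1) (H.tau t) i - ∑ u, H.E t u i * H.y v.1 u +
          H.a0 t i + H.b0 v.1 i)) / 2 ^ r := by ring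
    rw [e3]
    refine (abs_add_le _ _).trans ?_
    linarith
  · have h1 := hOk.h0
    have h2 : CH H.p H.th H.line ≤ CH H.p H.th (H.scl r).line := by
      refine CH_mono_cond hp0 fun ω ω' _ _ h => ?_
      have e : H.line ω = H.line ω' := h
      have e1 := (Prod.ext_iff.1 e).1
      have e2 := Prod.ext_iff.1 (Prod.ext_iff.1 e).2
      have e1' : H.nu ω = H.nu ω' := e1
      have e2' : H.v ω = H.v ω' := e2.1
      have e3' : H.b ω = H.b ω' := e2.2
      refine Prod.ext ?_ (Prod.ext ?_ e3')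
      · funext i
        show H.nu ω i / 2 ^ r = H.nu ω' i / 2 ^ r
        rw [e1']
      · refine Prod.ext e2' ?_
        funext i
        show H.nu ω i % 2 ^ r = H.nu ω' i % 2 ^ r
        rw [e1']
    have e : CH (H.scl r).p (H.scl r).th (H.scl r).b = CH H.p H.th H.b := rfl
    have e' : CH (H.scl r).p (H.scl r).th (H.scl r).line = CH H.p H.th (H.scl r).line := rfl
    rw [e, e']
    linarith
  · have h1 := hOk.h2
    have a1 := CH_le_add hp0 (H.scl r).hgt H.hgt (fun ω => (H.th ω, H.b ω))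
    have a2 := CH_le_vec hp0 hp.sum_one (H.scl r).hgt (fun ω => (H.hgt ω, (H.th ω, H.b ω)))
      (fun _ => 1) (by
        intro ω ω' _ _ h i
        have h3 : H.hgt ω = H.hgt ω' := (Prod.ext_iff.1 h).1
        have g1 := div_add_bd (H.nu ω i) (H.g (H.th ω) (H.v ω) i) r
        have g2 := div_add_bd (H.nu ω' i) (H.g (H.th ω') (H.v ω') i) r
        have e1 : H.nu ω i + H.g (H.th ω) (H.v ω) i = H.hgt ω i := rfl
        have e2 : H.nu ω' i + H.g (H.th ω') (H.v ω') i = H.hgt ω' i := rfl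
        have e3 : (H.scl r).hgt ω i = H.nu ω i / 2 ^ r + H.g (H.th ω) (H.v ω) i / 2 ^ r := rfl
        have e4 : (H.scl r).hgt ω' i = H.nu ω' i / 2 ^ r + H.g (H.th ω') (H.v ω') i / 2 ^ r := rfl
        rw [e1] at g1
        rw [e2, ← h3] at g2
        have : |(H.scl r).hgt ω i - (H.scl r).hgt ω' i| ≤ 1 := by
          rw [e3, e4, abs_le]
          constructor <;> linarith [g1.1, g1.2, g2.1, g2.2]
        exact_mod_cast this)
    rw [Ex_const hp.sum_one, show (2 : ℝ) * 1 + 1 = 3 by norm_num] at a2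
    have a3 := CH_le_add hp0 H.hgt (fun ω (i : Fin c) => H.nu ω i % 2 ^ r)
      (fun ω => (H.v ω, (H.th ω, H.b ω)))
    have a4 := CH_le_vec hp0 hp.sum_one (fun ω (i : Fin c) => H.nu ω i % 2 ^ r)
      (fun ω => (H.v ω, (H.th ω, H.b ω))) (fun _ => 2 ^ r) (fun ω ω' _ _ _ i => mod_bd _ _ _)
    rw [Ex_const hp.sum_one] at a4
    have a5 : CH H.p H.hgt (fun ω => ((fun (i : Fin c) => H.nu ω i % 2 ^ r),
        (H.v ω, (H.th ω, H.b ω)))) ≤
        CH H.p (H.scl r).hgt (fun ω => ((H.scl r).v ω, (H.th ω, H.b ω))) := by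
      have b1 : CH H.p H.hgt (fun ω => ((fun (i : Fin c) => H.nu ω i % 2 ^ r),
        (H.v ω, (H.th ω, H.b ω)))) ≤
        CH H.p H.hgt (fun ω => ((H.scl r).v ω, (H.th ω, H.b ω))) := by
        refine CH_mono_cond hp0 fun ω ω' _ _ h => ?_
        have h3 := Prod.ext_iff.1 h
        have h4 := Prod.ext_iff.1 h3.2
        exact Prod.ext (Prod.ext h4.1 h3.1) h4.2
      refine b1.trans (CH_mono_left hp0 fun ω ω' _ _ h => ?_)
      have h3 := Prod.ext_iff.1 h
      have h4 : (H.scl r).v ω = (H.scl r).v ω' := (Prod.ext_iff.1 h3.2).1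
      have h5 : H.th ω = H.th ω' := (Prod.ext_iff.1 (Prod.ext_iff.1 h3.2).2).1
      have h6 : H.v ω = H.v ω' := (Prod.ext_iff.1 h4).1
      have h7 : (fun i => H.nu ω i % 2 ^ r) = fun i => H.nu ω' i % 2 ^ r := (Prod.ext_iff.1 h4).2
      have h8 : (H.scl r).hgt ω = (H.scl r).hgt ω' := h3.1
      funext i
      have k1 : H.nu ω i % 2 ^ r = H.nu ω' i % 2 ^ r := congrFun h7 i
      have k2 : H.nu ω i / 2 ^ r + H.g (H.th ω) (H.v ω) i / 2 ^ r =
          H.nu ω' i / 2 ^ r + H.g (H.th ω') (H.v ω') i / 2 ^ r := congrFun h8 i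
      rw [h5, h6] at k2
      have k3 : H.nu ω i / 2 ^ r = H.nu ω' i / 2 ^ r := add_right_cancel k2
      have k4 := Int.mul_ediv_add_emod (H.nu ω i) (2 ^ r)
      have k5 := Int.mul_ediv_add_emod (H.nu ω' i) (2 ^ r)
      show H.nu ω i + H.g (H.th ω) (H.v ω) i = H.nu ω' i + H.g (H.th ω') (H.v ω') i
      rw [h5, h6, ← k4, ← k5, k1, k3]
    have e : CH (H.scl r).p (H.scl r).hgt (fun ω => ((H.scl r).th ω, (H.scl r).b ω)) =
      CH H.p (H.scl r).hgt (fun ω => (H.th ω, H.b ω)) := rfl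
    have e' : CH (H.scl r).p (H.scl r).hgt (fun ω => ((H.scl r).v ω,
      ((H.scl r).th ω, (H.scl r).b ω))) =
      CH H.p (H.scl r).hgt (fun ω => ((H.scl r).v ω, (H.th ω, H.b ω))) := rfl
    rw [e, e']
    unfold Ls
    linarith
  · have h1 := hOk.y_f
    have e : CH (H.scl r).p (fun ω => (H.scl r).y ((H.scl r).v ω)) (H.scl r).b =
      CH H.p (fun ω => H.y (H.v ω)) H.b := rfl
    rw [e]
    linarith
  · have h1 := hOk.t_f
    have e : CH (H.scl r).p (fun ω => (H.scl r).tau ((H.scl r).th ω)) (H.scl r).b =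
      CH H.p (fun ω => H.tau (H.th ω)) H.b := rfl
    rw [e]
    linarith

theorem scl_line (H : QHd c k n) (r : ℕ) (ω ω' : H.Ω) :
    (H.scl r).line ω = (H.scl r).line ω' ↔ H.line ω = H.line ω' := by
  constructor
  · intro h
    have h1 := Prod.ext_iff.1 h
    have h2 := Prod.ext_iff.1 h1.2
    have h3 : (H.scl r).v ω = (H.scl r).v ω' := h2.1
    have h4 : H.v ω = H.v ω' := (Prod.ext_iff.1 h3).1
    have h5 : (fun i => H.nu ω i % 2 ^ r) = fun i => H.nu ω' i % 2 ^ r := (Prod.ext_iff.1 h3).2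
    have h6 : (fun i => H.nu ω i / 2 ^ r) = fun i => H.nu ω' i / 2 ^ r := h1.1
    have h7 : H.b ω = H.b ω' := h2.2
    refine Prod.ext ?_ (Prod.ext h4 h7)
    funext i
    have k1 : H.nu ω i % 2 ^ r = H.nu ω' i % 2 ^ r := congrFun h5 i
    have k2 : H.nu ω i / 2 ^ r = H.nu ω' i / 2 ^ r := congrFun h6 i
    have k4 := Int.mul_ediv_add_emod (H.nu ω i) (2 ^ r)
    have k5 := Int.mul_ediv_add_emod (H.nu ω' i) (2 ^ r)
    show H.nu ω i = H.nu ω' i
    rw [← k4, ← k5, k1, k2]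
  · intro h
    have e1 := (Prod.ext_iff.1 h).1
    have e2 := Prod.ext_iff.1 (Prod.ext_iff.1 h).2
    have e1' : H.nu ω = H.nu ω' := e1
    have e2' : H.v ω = H.v ω' := e2.1
    have e3' : H.b ω = H.b ω' := e2.2
    refine Prod.ext ?_ (Prod.ext ?_ e3')
    · funext i
      show H.nu ω i / 2 ^ r = H.nu ω' i / 2 ^ r
      rw [e1']
    · refine Prod.ext e2' ?_
      funext i
      show H.nu ω i % 2 ^ r = H.nu ω' i % 2 ^ r
      rw [e1']

theorem OkN_mono {H : QHd c k n} {X : ℕ} {C d d' : ℝ} (h : H.OkN X C d) (hd : d ≤ d') :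
    H.OkN X C d' :=
  { law := h.law
    tau_r := h.tau_r
    y_r := h.y_r
    E_b := h.E_b
    be_b := h.be_b
    hgt_b := h.hgt_b
    g_eq := h.g_eq
    h0 := h.h0.trans hd
    h2 := h.h2.trans hd
    y_f := by
      have := h.y_f
      linarith
    t_f := by
      have := h.t_f
      linarith }

end Pool.BD64
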