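import Pool.Agent.H21.BD.Ld
import Mathlib.LinearAlgebra.Lagrange

/-!
# BODY of degree `n`: the signal of the last step

`sgl`: the sum of the second differences of the increments of the labels at `n + 2` times. `sig_bd`:
if the defects of the coefficients lie in `B`, the signal is, up to the body `B`, the multiple
`-Y` of the `(n + 2)`-point vector of the slopes, where `Y` is the difference of the values of `y`.
-/

set_option autoImplicit false

namespace Pool.BD64

open Finset Real Matrix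
open Pool.TT37 (dd pj pj_ne)
open Pool.QC (QD inc)

variable {c k n : ℕ}

/-- The constant. -/
noncomputable def Kg (c n : ℕ) (C : ℝ) : ℝ :=
  (n + 1) ^ 2 * (1 + 2 * C * c) + 6 * C * c * (n + 1)

/-- The sum of the powers over the products of the differences. -/
theorem pj_sum (x : Fin (n + 2) → ℝ) (hx : Function.Injective x) {e : ℕ} (he : e ≤ n) :
    ∑ j, x j ^ e / pj x j = 0 := by
  classical
  have h := Lagrange.coeff_eq_sum (s := (Finset.univ : Finset (Fin (n + 2)))) (v := x)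
    (P := (Polynomial.X : Polynomial ℝ) ^ e) hx.injOn (by
      rw [Polynomial.degree_X_pow, Finset.card_univ, Fintype.card_fin]
      exact_mod_cast (by omega : e < n + 2))
  rw [Polynomial.coeff_X_pow, Finset.card_univ, Fintype.card_fin,
    if_neg (by omega : ¬ n + 2 - 1 = e)] at h
  refine Eq.trans (Finset.sum_congr rfl fun j _ => ?_) h.symm
  rw [Polynomial.eval_pow, Polynomial.eval_X]
  congr 1
  unfold pj
  rw [← Finset.mul_prod_erase _ _ (Finset.mem_univ j), if_pos rfl, one_mul]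
  refine Finset.prod_congr rfl fun i hi => ?_
  rw [if_neg (Finset.ne_of_mem_erase hi)]

theorem inj_real {D : QD c k} {s : Fin (n + 2) → D.TT}
    (h : Function.Injective fun j => D.tau (s j)) :
    Function.Injective fun j => (D.tau (s j) : ℝ) := by
  intro a b e
  refine h ?_
  have e' : (D.tau (s a) : ℝ) = D.tau (s b) := e
  exact_mod_cast e'

theorem lm_sum {D : QD c k} {s : Fin (n + 2) → D.TT}
    (h : Function.Injective fun j => D.tau (s j)) {e : ℕ} (he : e ≤ n) :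
    ∑ j, lmb D s j * (D.tau (s j) : ℝ) ^ e = 0 := by
  have h1 := pj_sum (fun j => (D.tau (s j) : ℝ)) (inj_real h) he
  have e1 : ∑ j, lmb D s j * (D.tau (s j) : ℝ) ^ e =
      pj (fun j => (D.tau (s j) : ℝ)) 0 *
        ∑ j, (D.tau (s j) : ℝ) ^ e / pj (fun j => (D.tau (s j) : ℝ)) j := by
    rw [Finset.mul_sum]
    refine Finset.sum_congr rfl fun j _ => ?_
    unfold lmb
    ring
  rw [e1, h1, mul_zero]

theorem lm_zero {D : QD c k} {s : Fin (n + 2) → D.TT}
    (h : Function.Injective fun j => D.tau (s j)) : lmb D s 0 = 1 :=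
  div_self (pj_ne _ (inj_real h) 0)

theorem lm_le {D : QD c k} {s : Fin (n + 2) → D.TT}
    (h : Function.Injective fun j => D.tau (s j))
    (hm : ∀ j, |pj (fun j => (D.tau (s j) : ℝ)) 0| ≤ |pj (fun j => (D.tau (s j) : ℝ)) j|)
    (j : Fin (n + 2)) : |lmb D s j| ≤ 1 := by
  unfold lmb
  rw [abs_div, div_le_one (abs_pos.2 (pj_ne _ (inj_real h) j))]
  exact hm j

/-- The powers of the scaled times. -/
theorem lm_pow {D : QD c k} {s : Fin (n + 2) → D.TT}
    (h : Function.Injective fun j => D.tau (s j)) (X : ℕ) {e : ℕ} (he : e ≤ n) :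
    ∑ j : Fin (n + 1), lmb D s j.succ *
      (((D.tau (s j.succ) : ℝ) / 2 ^ X) ^ e - ((D.tau (s 0) : ℝ) / 2 ^ X) ^ e) = 0 := by
  have h1 := lm_sum h he
  have h2 := lm_sum h (Nat.zero_le n)
  have h3 : ∑ j, lmb D s j * (((D.tau (s j) : ℝ) / 2 ^ X) ^ e -
      ((D.tau (s 0) : ℝ) / 2 ^ X) ^ e) = 0 := by
    have e1 : ∀ j, lmb D s j * (((D.tau (s j) : ℝ) / 2 ^ X) ^ e -
        ((D.tau (s 0) : ℝ) / 2 ^ X) ^ e) =
        lmb D s j * (D.tau (s j) : ℝ) ^ e * (1 / (2 ^ X) ^ e) -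
          lmb D s j * (D.tau (s j) : ℝ) ^ 0 * ((D.tau (s 0) : ℝ) / 2 ^ X) ^ e := by
      intro j
      rw [div_pow, div_pow, pow_zero]
      ring
    rw [Finset.sum_congr rfl fun j _ => e1 j, Finset.sum_sub_distrib, ← Finset.sum_mul,
      ← Finset.sum_mul, h1, h2, zero_mul, zero_mul, sub_zero]
  rw [Fin.sum_univ_succ, sub_self, mul_zero, zero_add] at h3
  exact h3

/-- The vector `dd`. -/
theorem dd_lm {D : QD c k} {s : Fin (n + 2) → D.TT}
    (h : Function.Injective fun j => D.tau (s j))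
    (hm : ∀ j, |pj (fun j => (D.tau (s j) : ℝ)) 0| ≤ |pj (fun j => (D.tau (s j) : ℝ)) j|)
    (u : Fin k) (i : Fin c) :
    dd n D.tau D.E u s i =
      ∑ j : Fin (n + 1), lmb D s j.succ * (D.E (s j.succ) u i - D.E (s 0) u i) := by
  have h2 := lm_sum h (Nat.zero_le n)
  have e1 : dd n D.tau D.E u s i = ∑ j, lmb D s j * D.E (s j) u i := by
    unfold dd
    rw [if_pos ⟨h, hm⟩]
    rfl
  have e2 : ∑ j, lmb D s j * D.E (s j) u i =
      ∑ j, lmb D s j * (D.E (s j) u i - D.E (s 0) u i) := by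
    have e3 : ∀ j, lmb D s j * (D.E (s j) u i - D.E (s 0) u i) =
        lmb D s j * D.E (s j) u i - lmb D s j * (D.tau (s j) : ℝ) ^ 0 * D.E (s 0) u i := by
      intro j
      rw [pow_zero]
      ring
    rw [Finset.sum_congr rfl fun j _ => e3 j, Finset.sum_sub_distrib, ← Finset.sum_mul, h2,
      zero_mul, sub_zero]
  rw [e1, e2, Fin.sum_univ_succ, sub_self, mul_zero, zero_add]

/-- Small vectors, in the body. -/
theorem inv_small {B : Matrix (Fin c) (Fin c) ℝ} {X : ℕ} (hB : ∀ i j, |B⁻¹ i j| ≤ 2 ^ X)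
    {x : Fin c → ℝ} {a : ℝ} (hx : ∀ i, |x i| ≤ a / 2 ^ X) (b : Fin c) :
    |(B⁻¹ *ᵥ x) b| ≤ c * a := by
  have hX : (0 : ℝ) < 2 ^ X := by positivity
  unfold Matrix.mulVec dotProduct
  refine (Finset.abs_sum_le_sum_abs _ _).trans ?_
  calc ∑ i, |B⁻¹ b i * x i| ≤ ∑ _i : Fin c, a := by
        refine Finset.sum_le_sum fun i _ => ?_
        rw [abs_mul]
        calc |B⁻¹ b i| * |x i| ≤ 2 ^ X * (a / 2 ^ X) :=
              mul_le_mul (hB b i) (hx i) (abs_nonneg _) hX.le
          _ = a := by field_simp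
    _ = c * a := by simp

section sig

variable {D : QD c k} {bs : D.VV → Fin (n + 1) → Fin c → ℝ} {X : ℕ} {C q : ℝ}

/-- The error of the increments. -/
noncomputable def ge (D : QD c k) (bs : D.VV → Fin (n + 1) → Fin c → ℝ) (X : ℕ) (t : D.TT)
    (v : D.VV) (i : Fin c) : ℝ :=
  (D.g t v i : ℝ) - (pol X (bs v) (D.tau t) i - ∑ u, D.E t u i * D.y v u + D.a0 t i + D.b0 v i)

/-- **The signal.** -/
theorem sig_bd (hD : OkG D bs X C q) (s : Fin (n + 2) → D.TT) (u : Fin k)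
    (hinj : Function.Injective fun j => D.tau (s j))
    (hmax : ∀ j, |pj (fun j => (D.tau (s j) : ℝ)) 0| ≤ |pj (fun j => (D.tau (s j) : ℝ)) j|)
    (W : Bool × Fin (n + 2) → D.VV) (hW : ∀ l a, D.adj (s l) (W a))
    (hy : ∀ j i, i ≠ u → D.y (W (true, j)) i = D.y (W (false, j)) i)
    (hf : ∀ j, ⌊(D.y (W (true, j)) u : ℝ) - lmb D s j * D.y (W (true, 0)) u⌋ =
      ⌊(D.y (W (false, j)) u : ℝ) - lmb D s j * D.y (W (false, 0)) u⌋)
    {B : Matrix (Fin c) (Fin c) ℝ} (hBi : ∀ i j, |B⁻¹ i j| ≤ 2 ^ X) (hK : Kn D bs X B W)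
    (b : Fin c) :
    |(B⁻¹ *ᵥ fun i => ((sgl D s W i : ℝ) +
      dd n D.tau D.E u s i * ((D.y (W (true, 0)) u - D.y (W (false, 0)) u : ℤ) : ℝ)) / 2 ^ X) b| ≤
      Kg c n C := by
  classical
  have hX : (0 : ℝ) < 2 ^ X := by positivity
  have hXZ : (0 : ℤ) < 2 ^ X := by positivity
  -- notations
  obtain ⟨x, hx⟩ : ∃ x : Fin (n + 2) → ℝ, x = fun j => (D.tau (s j) : ℝ) / 2 ^ X := ⟨_, rfl⟩
  obtain ⟨l, hl⟩ : ∃ l : Fin (n + 2) → ℝ, l = lmb D s := ⟨_, rfl⟩
  obtain ⟨Y, hY⟩ : ∃ Y : Fin (n + 2) → ℤ, Y = fun j =>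
    D.y (W (true, j)) u - D.y (W (false, j)) u := ⟨_, rfl⟩
  obtain ⟨w, hw⟩ : ∃ w : Fin (n + 2) → ℤ, w = fun j => ⌊l j * 2 ^ X⌋ := ⟨_, rfl⟩
  have hl1 : ∀ j, |l j| ≤ 1 := fun j => by
    rw [hl]
    exact lm_le hinj hmax j
  have hx1 : ∀ j, 0 ≤ x j ∧ x j ≤ 1 := by
    intro j
    have h := hD.tau_r (s j)
    rw [hx]
    have h1 : (0 : ℝ) ≤ D.tau (s j) := by exact_mod_cast h.1
    have h2 : (D.tau (s j) : ℝ) ≤ 2 ^ X := by exact_mod_cast h.2.le
    exact ⟨div_nonneg h1 hX.le, (div_le_one hX).2 h2⟩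
  -- the differences of the values of `y`
  have hYl : ∀ j, |(Y j : ℝ) - l j * Y 0| ≤ 1 := by
    intro j
    have h := Int.abs_sub_lt_one_of_floor_eq_floor (hf j)
    have e : ((D.y (W (true, j)) u : ℝ) - lmb D s j * D.y (W (true, 0)) u) -
        ((D.y (W (false, j)) u : ℝ) - lmb D s j * D.y (W (false, 0)) u) =
        (Y j : ℝ) - l j * Y 0 := by
      rw [hY, hl]
      push_cast
      ring
    rw [e] at h
    exact h.le
  have hY0 : |(Y 0 : ℝ)| ≤ 2 ^ X := by
    have r1 := hD.y_r (W (true, 0)) u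
    have r2 := hD.y_r (W (false, 0)) u
    have h : |Y 0| ≤ 2 ^ X := by
      rw [hY, abs_le]
      constructor <;> linarith [r1.1, r1.2, r2.1, r2.2]
    exact_mod_cast h
  have hwl : ∀ j, |(w j : ℝ) - l j * 2 ^ X| ≤ 1 := by
    intro j
    rw [hw]
    have h1 := Int.floor_le (l j * 2 ^ X)
    have h2 := Int.lt_floor_add_one (l j * 2 ^ X)
    rw [abs_le]
    constructor <;> linarith
  -- the relations
  obtain ⟨I, hI⟩ : ∃ I : Fin (n + 2) → Fin (n + 1) → Fin c → ℝ, I = fun j e =>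
    bs (W (true, j)) e - bs (W (false, j)) e := ⟨_, rfl⟩
  have hRel : ∀ j, Rel X D.y u (W ∘ ![(true, 0), (false, 0)]) (W ∘ ![(true, j), (false, j)])
      (w j) := by
    intro j
    refine ⟨fun i hi => ⟨?_, ?_⟩, ?_, ?_⟩
    · exact sub_eq_zero.2 (hy 0 i hi)
    · exact sub_eq_zero.2 (hy j i hi)
    · have h1 := hl1 j
      rw [abs_le] at h1 ⊢
      rw [hw]
      constructor
      · rw [Int.le_floor]
        push_cast
        nlinarith [h1.1]
      · have h2 : ⌊l j * 2 ^ X⌋ ≤ ⌊(2 : ℝ) ^ X⌋ := Int.floor_le_floor (by nlinarith [h1.2])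
        refine h2.trans ?_
        have h3 : ⌊(2 : ℝ) ^ X⌋ = 2 ^ X := by
          have : ((2 : ℝ) ^ X) = (((2 : ℤ) ^ X : ℤ) : ℝ) := by push_cast; rfl
          rw [this, Int.floor_intCast]
        exact h3.le
    · show |2 ^ X * (D.y (W (true, j)) u - D.y (W (false, j)) u) -
        w j * (D.y (W (true, 0)) u - D.y (W (false, 0)) u)| ≤ 4 * 2 ^ X
      have e1 : (2 : ℤ) ^ X * (D.y (W (true, j)) u - D.y (W (false, j)) u) -
          w j * (D.y (W (true, 0)) u - D.y (W (false, 0)) u) = 2 ^ X * Y j - w j * Y 0 := by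
        rw [hY]
      rw [e1]
      have h1 := hYl j
      have h2 := hwl j
      have e2 : (2 : ℝ) ^ X * (Y j : ℝ) - w j * Y 0 =
          2 ^ X * ((Y j : ℝ) - l j * Y 0) - ((w j : ℝ) - l j * 2 ^ X) * Y 0 := by ring
      have h3 : |(2 : ℝ) ^ X * (Y j : ℝ) - w j * Y 0| ≤ 4 * 2 ^ X := by
        rw [e2]
        refine (abs_sub _ _).trans ?_
        rw [abs_mul, abs_mul, abs_of_pos hX]
        have h4 : 2 ^ X * |(Y j : ℝ) - l j * Y 0| ≤ 2 ^ X * 1 :=
          mul_le_mul_of_nonneg_left h1 hX.le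
        have h5 : |(w j : ℝ) - l j * 2 ^ X| * |(Y 0 : ℝ)| ≤ 1 * 2 ^ X :=
          mul_le_mul h2 hY0 (abs_nonneg _) zero_le_one
        linarith
      exact_mod_cast h3
  obtain ⟨df, hdf⟩ : ∃ df : Fin (n + 2) → Fin (n + 1) → Fin c → ℝ, df = fun j e =>
    I j e - ((w j : ℝ) / 2 ^ X) • I 0 e := ⟨_, rfl⟩
  have hdfB : ∀ j, ∀ e : Fin (n + 1), e ≠ 0 → InB B (df j e) := by
    intro j e he
    have h := hK e he ![(true, 0), (false, 0)] ![(true, j), (false, j)] u (w j) (hRel j)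
    rw [hdf, hI]
    exact h
  -- the errors
  obtain ⟨r, hr⟩ : ∃ r : Fin (n + 2) → Fin (n + 2) → Bool → Fin c → ℝ, r = fun m j a i =>
    ge D bs X (s m) (W (a, j)) i := ⟨_, rfl⟩
  have hrC : ∀ m j a i, |r m j a i| ≤ C := by
    intro m j a i
    rw [hr]
    exact hD.g_eq (s m) (W (a, j)) (hW m (a, j)) i
  have hC0 : 0 ≤ C := (abs_nonneg _).trans (hrC 0 0 true b)
  have hge : ∀ m j a i, (D.g (s m) (W (a, j)) i : ℝ) = pol X (bs (W (a, j))) (D.tau (s m)) i -
      ∑ u, D.E (s m) u i * D.y (W (a, j)) u + D.a0 (s m) i + D.b0 (W (a, j)) i + r m j a i := by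
    intro m j a i
    rw [hr]
    unfold ge
    ring
  -- the second difference
  have hgd : ∀ (j : Fin (n + 2)) (i : Fin c),
      ((D.g (s j) (W (true, j)) i - D.g (s 0) (W (true, j)) i -
        D.g (s j) (W (false, j)) i + D.g (s 0) (W (false, j)) i : ℤ) : ℝ) =
      (∑ e : Fin (n + 1), I j e i * (x j ^ (e : ℕ) - x 0 ^ (e : ℕ)) * 2 ^ X) -
        (D.E (s j) u i - D.E (s 0) u i) * Y j +
        (r j j true i - r 0 j true i - (r j j false i - r 0 j false i)) := by
    intro j i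
    push_cast
    rw [hge j j true i, hge 0 j true i, hge j j false i, hge 0 j false i]
    have e1 : ∀ m : Fin (n + 2), ∑ u', D.E (s m) u' i * (D.y (W (true, j)) u' : ℝ) -
        ∑ u', D.E (s m) u' i * (D.y (W (false, j)) u' : ℝ) = D.E (s m) u i * Y j := by
      intro m
      rw [← Finset.sum_sub_distrib, Finset.sum_eq_single u]
      · rw [hY]
        push_cast
        ring
      · intro u' _ hu'
        rw [hy j u' hu', sub_self]
      · intro h
        exact absurd (Finset.mem_univ u) h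
    have e2 : pol X (bs (W (true, j))) (D.tau (s j)) i - pol X (bs (W (true, j))) (D.tau (s 0)) i -
        (pol X (bs (W (false, j))) (D.tau (s j)) i - pol X (bs (W (false, j))) (D.tau (s 0)) i) =
        ∑ e : Fin (n + 1), I j e i * (x j ^ (e : ℕ) - x 0 ^ (e : ℕ)) * 2 ^ X := by
      unfold pol
      rw [← Finset.sum_sub_distrib, ← Finset.sum_sub_distrib, ← Finset.sum_sub_distrib]
      refine Finset.sum_congr rfl fun e _ => ?_
      rw [hI, hx]
      simp only [Pi.sub_apply]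
      ring
    have f1 := e1 j
    have f2 := e1 0
    rw [← e2]
    linarith
  -- the signal
  have hsg : ∀ i, (sgl D s W i : ℝ) =
      ∑ j : Fin (n + 1), ((∑ e : Fin (n + 1), I j.succ e i *
        (x j.succ ^ (e : ℕ) - x 0 ^ (e : ℕ)) * 2 ^ X) -
        (D.E (s j.succ) u i - D.E (s 0) u i) * Y j.succ +
        (r j.succ j.succ true i - r 0 j.succ true i -
          (r j.succ j.succ false i - r 0 j.succ false i))) := by
    intro i
    unfold sgl
    rw [Finset.sum_apply, Int.cast_sum]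
    refine Finset.sum_congr rfl fun j _ => ?_
    exact hgd j.succ i
  -- the parts
  obtain ⟨P1, hP1⟩ : ∃ P1 : Fin (n + 1) → Fin (n + 1) → Fin c → ℝ, P1 =
    fun (j e : Fin (n + 1)) => (x j.succ ^ (e : ℕ) - x 0 ^ (e : ℕ)) • (if e = 0 then 0 else df j.succ e) := ⟨_, rfl⟩
  obtain ⟨P2, hP2⟩ : ∃ P2 : Fin (n + 1) → Fin (n + 1) → Fin c → ℝ, P2 =
    fun (j e : Fin (n + 1)) => ((x j.succ ^ (e : ℕ) - x 0 ^ (e : ℕ)) * (((w j.succ : ℝ) - l j.succ * 2 ^ X) / 2 ^ X)) •
      I 0 e := ⟨_, rfl⟩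
  obtain ⟨P3, hP3⟩ : ∃ P3 : Fin (n + 1) → Fin c → ℝ, P3 =
    fun (j : Fin (n + 1)) (i : Fin c) => (-((D.E (s j.succ) u i - D.E (s 0) u i) * ((Y j.succ : ℝ) - l j.succ * Y 0)) +
      (r j.succ j.succ true i - r 0 j.succ true i -
          (r j.succ j.succ false i - r 0 j.succ false i))) / 2 ^ X := ⟨_, rfl⟩
  have hsum : (fun i => ((sgl D s W i : ℝ) +
      dd n D.tau D.E u s i * ((D.y (W (true, 0)) u - D.y (W (false, 0)) u : ℤ) : ℝ)) / 2 ^ X) =
      ∑ j : Fin (n + 1), (∑ e : Fin (n + 1), (P1 j e + P2 j e) + P3 j) := by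
    funext i
    have hpw : ∀ e : Fin (n + 1), ∑ j : Fin (n + 1), l j.succ *
        (x j.succ ^ (e : ℕ) - x 0 ^ (e : ℕ)) = 0 := by
      intro e
      have h := lm_pow hinj X (e := (e : ℕ)) (by have := e.2; omega)
      rw [hl, hx]
      exact h
    have hz : ∑ e : Fin (n + 1), (∑ j : Fin (n + 1), l j.succ *
        (x j.succ ^ (e : ℕ) - x 0 ^ (e : ℕ))) * I 0 e i = 0 :=
      Finset.sum_eq_zero fun e _ => by rw [hpw e, zero_mul]
    have hY0' : ((D.y (W (true, 0)) u - D.y (W (false, 0)) u : ℤ) : ℝ) = Y 0 := by rw [hY]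
    rw [hsg i, dd_lm hinj hmax u i, hY0', Finset.sum_mul, ← Finset.sum_add_distrib,
      Finset.sum_div, Finset.sum_apply]
    have e1 : ∀ j : Fin (n + 1),
        (((∑ e : Fin (n + 1), I j.succ e i * (x j.succ ^ (e : ℕ) - x 0 ^ (e : ℕ)) * 2 ^ X) -
        (D.E (s j.succ) u i - D.E (s 0) u i) * Y j.succ +
        (r j.succ j.succ true i - r 0 j.succ true i -
          (r j.succ j.succ false i - r 0 j.succ false i))) +
        lmb D s j.succ * (D.E (s j.succ) u i - D.E (s 0) u i) * Y 0) / 2 ^ X =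
        (∑ e : Fin (n + 1), (P1 j e + P2 j e) + P3 j) i +
          ∑ e : Fin (n + 1), (l j.succ * (x j.succ ^ (e : ℕ) - x 0 ^ (e : ℕ))) * I 0 e i := by
      intro j
      rw [Pi.add_apply, Finset.sum_apply]
      have e2 : ∀ e : Fin (n + 1), (P1 j e + P2 j e) i +
          (l j.succ * (x j.succ ^ (e : ℕ) - x 0 ^ (e : ℕ))) * I 0 e i =
          I j.succ e i * (x j.succ ^ (e : ℕ) - x 0 ^ (e : ℕ)) := by
        intro e
        rw [hP1, hP2, hdf]
        by_cases he : e = 0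
        · rw [he]
          simp
        · simp only [if_neg he, Pi.add_apply, Pi.smul_apply, Pi.sub_apply, smul_eq_mul]
          field_simp
          ring
      have e3 : ∑ e : Fin (n + 1), (P1 j e + P2 j e) i + P3 j i +
          ∑ e : Fin (n + 1), (l j.succ * (x j.succ ^ (e : ℕ) - x 0 ^ (e : ℕ))) * I 0 e i =
          ∑ e : Fin (n + 1), I j.succ e i * (x j.succ ^ (e : ℕ) - x 0 ^ (e : ℕ)) + P3 j i := by
        rw [← Finset.sum_congr rfl fun e _ => e2 e, Finset.sum_add_distrib]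
        ring
      rw [e3, ← Finset.sum_mul, hP3, ← hl]
      field_simp
      ring
    rw [Finset.sum_congr rfl fun j _ => e1 j, Finset.sum_add_distrib]
    have e4 : ∑ j : Fin (n + 1), ∑ e : Fin (n + 1),
        (l j.succ * (x j.succ ^ (e : ℕ) - x 0 ^ (e : ℕ))) * I 0 e i = 0 := by
      rw [Finset.sum_comm, ← hz]
      refine Finset.sum_congr rfl fun e _ => ?_
      rw [Finset.sum_mul]
    rw [e4, add_zero]
  rw [hsum, Matrix.mulVec_sum, Finset.sum_apply]
  -- the bounds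
  have hxe : ∀ (j : Fin (n + 2)) (e : ℕ), |x j ^ e - x 0 ^ e| ≤ 1 := by
    intro j e
    have a1 : 0 ≤ x j ^ e := pow_nonneg (hx1 j).1 _
    have a2 : x j ^ e ≤ 1 := pow_le_one₀ (hx1 j).1 (hx1 j).2
    have a3 : 0 ≤ x 0 ^ e := pow_nonneg (hx1 0).1 _
    have a4 : x 0 ^ e ≤ 1 := pow_le_one₀ (hx1 0).1 (hx1 0).2
    rw [abs_le]
    constructor <;> linarith
  have hI0 : ∀ e i, |I 0 e i| ≤ 2 * C := by
    intro e i
    rw [hI]
    have a1 := hD.bs_b (W (true, 0)) e i
    have a2 := hD.bs_b (W (false, 0)) e i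
    refine (abs_sub _ _).trans ?_
    linarith
  have b1 : ∀ j e, |(B⁻¹ *ᵥ P1 j e) b| ≤ 1 := by
    intro j e
    rw [hP1]
    simp only [Matrix.mulVec_smul, Pi.smul_apply, smul_eq_mul]
    rw [abs_mul]
    have h1 : |(B⁻¹ *ᵥ (if e = 0 then 0 else df j.succ e)) b| ≤ 1 := by
      split_ifs with he
      · rw [Matrix.mulVec_zero, Pi.zero_apply, abs_zero]
        exact zero_le_one
      · exact hdfB j.succ e he b
    calc _ ≤ 1 * 1 := mul_le_mul (hxe _ _) h1 (abs_nonneg _) zero_le_one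
      _ = 1 := one_mul 1
  have b2 : ∀ j e, |(B⁻¹ *ᵥ P2 j e) b| ≤ c * (2 * C) := by
    intro j e
    refine inv_small hBi (fun i => ?_) b
    rw [hP2]
    simp only [Pi.smul_apply, smul_eq_mul]
    rw [abs_mul, abs_mul, abs_div, abs_of_pos hX]
    have a1 := hxe j.succ (e : ℕ)
    have a2 := hwl j.succ
    have a3 := hI0 e i
    calc |x j.succ ^ (e : ℕ) - x 0 ^ (e : ℕ)| * (|(w j.succ : ℝ) - l j.succ * 2 ^ X| / 2 ^ X) *
          |I 0 e i| ≤ 1 * (1 / 2 ^ X) * (2 * C) := by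
          refine mul_le_mul ?_ a3 (abs_nonneg _) (by positivity)
          exact mul_le_mul a1 (div_le_div_of_nonneg_right a2 hX.le) (by positivity) zero_le_one
      _ = 2 * C / 2 ^ X := by ring
  have b3 : ∀ j, |(B⁻¹ *ᵥ P3 j) b| ≤ c * (6 * C) := by
    intro j
    refine inv_small hBi (fun i => ?_) b
    rw [hP3]
    simp only
    rw [abs_div, abs_of_pos hX]
    refine div_le_div_of_nonneg_right ?_ hX.le
    have a1 := hYl j.succ
    have a2 := hD.E_b (s j.succ) u i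
    have a3 := hD.E_b (s 0) u i
    have a4 : |D.E (s j.succ) u i - D.E (s 0) u i| ≤ 2 * C := (abs_sub _ _).trans (by linarith)
    have a5 : |-((D.E (s j.succ) u i - D.E (s 0) u i) * ((Y j.succ : ℝ) - l j.succ * Y 0))| ≤
        2 * C := by
      rw [abs_neg, abs_mul]
      calc _ ≤ 2 * C * 1 := mul_le_mul a4 a1 (abs_nonneg _) (by positivity)
        _ = _ := mul_one _
    have c1 := hrC j.succ j.succ true i
    have c2 := hrC 0 j.succ true i
    have c3 := hrC j.succ j.succ false i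
    have c4 := hrC 0 j.succ false i
    rw [abs_le] at a5 c1 c2 c3 c4 ⊢
    constructor <;> linarith [a5.1, a5.2, c1.1, c1.2, c2.1, c2.2, c3.1, c3.2, c4.1, c4.2]
  calc |∑ j : Fin (n + 1), (B⁻¹ *ᵥ (∑ e : Fin (n + 1), (P1 j e + P2 j e) + P3 j)) b| ≤
        ∑ j : Fin (n + 1), |(B⁻¹ *ᵥ (∑ e : Fin (n + 1), (P1 j e + P2 j e) + P3 j)) b| :=
        Finset.abs_sum_le_sum_abs _ _
    _ ≤ ∑ _j : Fin (n + 1), ((n + 1) * (1 + c * (2 * C)) + c * (6 * C)) := by
        refine Finset.sum_le_sum fun j _ => ?_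
        rw [Matrix.mulVec_add, Pi.add_apply, Matrix.mulVec_sum, Finset.sum_apply]
        refine (abs_add_le _ _).trans (add_le_add ?_ (b3 j))
        refine (Finset.abs_sum_le_sum_abs _ _).trans ?_
        calc ∑ e : Fin (n + 1), |(B⁻¹ *ᵥ (P1 j e + P2 j e)) b| ≤
              ∑ _e : Fin (n + 1), (1 + (c : ℝ) * (2 * C)) := by
              refine Finset.sum_le_sum fun e _ => ?_
              rw [Matrix.mulVec_add, Pi.add_apply]
              exact (abs_add_le _ _).trans (add_le_add (b1 j e) (b2 j e))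
          _ = (n + 1) * (1 + c * (2 * C)) := by
              rw [Finset.sum_const, Finset.card_univ, Fintype.card_fin, nsmul_eq_mul]
              push_cast
              ring
    _ = Kg c n C := by
        rw [Finset.sum_const, Finset.card_univ, Fintype.card_fin, nsmul_eq_mul]
        unfold Kg
        push_cast
        ring

end sig

/-- **(L2)** -/
theorem sgl_stmt (c k n : ℕ) : SglStmt c k n := by
  intro C hC
  refine ⟨Kg c n C, ?_, ?_⟩
  · unfold Kg
    positivity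
  · intro D bs X q hD s u hs B _ hBi W hW hcel hK b
    have h1 := (Prod.ext_iff.1 hcel).1
    have h2 := (Prod.ext_iff.1 hcel).2
    refine sig_bd hD s u hs.1 hs.2 W hW (fun j i hi => ?_) (fun j => congrFun h2 j) hBi hK b
    have h3 := congrFun (congrFun h1 j) i
    simp only [cel, if_neg hi] at h3
    exact h3

end Pool.BD64
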